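import Pool.Agent.helper11.CFL.Spec

/-!
# Row cf:TR : a spanning tree of small total length
-/

namespace Pool.Agent.helper88.CFL

open Finset Pool.Agent.helper11.CFL

/-- The surjection which merges the two points `a` and `b`. -/
theorem exists_merge {q : ℕ} (a b : Fin (q + 1)) (hab : a ≠ b) :
    ∃ (σ : Fin (q + 1) → Fin q) (τ : Fin q → Fin (q + 1)),
      (∀ j, σ (τ j) = j) ∧ σ a = σ b ∧ ∀ x, x ≠ b → τ (σ x) = x := by
  classical
  let e : Fin q ≃ {x : Fin (q + 1) // x ≠ b} := finSuccAboveEquiv b
  refine ⟨fun x => if h : x = b then e.symm ⟨a, hab⟩ else e.symm ⟨x, h⟩, fun j => (e j : Fin (q + 1)),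
    ?_, ?_, ?_⟩
  · intro j
    have h : (e j : Fin (q + 1)) ≠ b := (e j).2
    simp only [h, dif_neg, not_false_eq_true]
    exact e.symm_apply_apply j
  · simp only [dif_pos, hab, dif_neg, not_false_eq_true]
  · intro x hx
    simp only [hx, dif_neg, not_false_eq_true, Equiv.apply_symm_apply]

theorem key {V E : Type} [Fintype E] [DecidableEq E] (src tgt : E → V) (w : E → ℝ)
    (hw : ∀ e, 0 ≤ w e) (hS : Strong src tgt w) :
    ∀ (q : ℕ) (π : V → Fin (q + 1)), Function.Surjective π → ∀ l : E → ℝ, (∀ e, 0 ≤ l e) →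
      ∃ T : Finset E, T.card = q ∧ (∀ e ∈ T, π (src e) ≠ π (tgt e)) ∧
        (∀ x : Fin (q + 1) → ℝ, (∀ e ∈ T, x (π (src e)) = x (π (tgt e))) → ∀ u v, x u = x v) ∧
        ∑ e ∈ T, l e ≤
          ∑ e ∈ univ.filter (fun e => π (src e) ≠ π (tgt e)), w e * l e := by
  intro q
  induction q with
  | zero =>
    intro π _ l hl
    refine ⟨∅, rfl, by simp, ?_, ?_⟩
    · intro x _ u v
      have huv : u = v := by
        apply Fin.ext
        omega
      rw [huv]
    · rw [Finset.sum_empty]
      exact Finset.sum_nonneg fun e _ => mul_nonneg (hw e) (hl e)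
  | succ q ih =>
    intro π hπ l hl
    set C := univ.filter (fun e => π (src e) ≠ π (tgt e)) with hC
    have hmemC : ∀ e, e ∈ C ↔ π (src e) ≠ π (tgt e) := by
      intro e; simp [hC]
    have hstr : ((q + 1 + 1 : ℕ) : ℝ) ≤ ∑ e ∈ C, w e + 1 := hS _ π hπ
    have hne : C.Nonempty := by
      by_contra hcon
      rw [Finset.not_nonempty_iff_eq_empty] at hcon
      rw [hcon, Finset.sum_empty] at hstr
      push_cast at hstr
      have : (0 : ℝ) ≤ (q : ℝ) := Nat.cast_nonneg q
      linarith
    obtain ⟨e₀, he₀, hmin⟩ := Finset.exists_min_image C l hne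
    obtain ⟨σ, τ, h1, h2, h3⟩ := exists_merge (π (src e₀)) (π (tgt e₀)) ((hmemC e₀).1 he₀)
    -- the truncated lengths
    set m := l e₀ with hm
    have hm0 : 0 ≤ m := hl e₀
    have hσs : Function.Surjective σ := fun j => ⟨τ j, h1 j⟩
    obtain ⟨T, hT1, hT2, hT3, hT4⟩ := ih (fun v => σ (π v)) (hσs.comp hπ)
      (fun e => max (l e - m) 0) (fun e => le_max_right _ _)
    have hsub : ∀ e, σ (π (src e)) ≠ σ (π (tgt e)) → e ∈ C := by
      intro e he
      rw [hmemC]
      intro h
      exact he (by rw [h])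
    have he₀T : e₀ ∉ T := fun h => hT2 e₀ h h2
    refine ⟨insert e₀ T, ?_, ?_, ?_, ?_⟩
    · rw [Finset.card_insert_of_notMem he₀T, hT1]
    · intro e he
      rcases Finset.mem_insert.1 he with rfl | he
      · exact (hmemC e).1 he₀
      · exact (hmemC e).1 (hsub e (hT2 e he))
    · intro x hx
      have hab : x (π (src e₀)) = x (π (tgt e₀)) := hx e₀ (Finset.mem_insert_self _ _)
      have hfac : ∀ z, x (τ (σ z)) = x z := by
        intro z
        by_cases hz : z = π (tgt e₀)
        · rw [hz, ← h2, h3 _ ((hmemC e₀).1 he₀), hab]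
        · rw [h3 z hz]
      have hy := hT3 (fun j => x (τ j)) (by
        intro e he
        show x (τ (σ (π (src e)))) = x (τ (σ (π (tgt e))))
        rw [hfac, hfac]
        exact hx e (Finset.mem_insert_of_mem he))
      intro u v
      rw [← hfac u, ← hfac v]
      exact hy (σ u) (σ v)
    · rw [Finset.sum_insert he₀T]
      have hle : ∀ e ∈ C, m ≤ l e := hmin
      have e1 : ∑ e ∈ T, l e = ∑ e ∈ T, max (l e - m) 0 + q * m := by
        have : ∑ e ∈ T, l e = ∑ e ∈ T, (max (l e - m) 0 + m) := by
          refine Finset.sum_congr rfl fun e he => ?_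
          have := hle e (hsub e (hT2 e he))
          rw [max_eq_left (by linarith)]
          ring
        rw [this, Finset.sum_add_distrib, Finset.sum_const, hT1, nsmul_eq_mul]
      have e2 : ∑ e ∈ univ.filter (fun e => σ (π (src e)) ≠ σ (π (tgt e))),
          w e * max (l e - m) 0 ≤ ∑ e ∈ C, w e * (l e - m) := by
        calc ∑ e ∈ univ.filter (fun e => σ (π (src e)) ≠ σ (π (tgt e))),
            w e * max (l e - m) 0
            ≤ ∑ e ∈ C, w e * max (l e - m) 0 := by
              refine Finset.sum_le_sum_of_subset_of_nonneg ?_ ?_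
              · intro e he
                exact hsub e (Finset.mem_filter.1 he).2
              · intro e _ _
                exact mul_nonneg (hw e) (le_max_right _ _)
          _ = ∑ e ∈ C, w e * (l e - m) := by
              refine Finset.sum_congr rfl fun e he => ?_
              have := hle e he
              rw [max_eq_left (by linarith)]
      have e3 : ∑ e ∈ C, w e * (l e - m) = ∑ e ∈ C, w e * l e - m * ∑ e ∈ C, w e := by
        rw [Finset.mul_sum, ← Finset.sum_sub_distrib]
        exact Finset.sum_congr rfl fun e _ => by ring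
      have e4 : m * ((q : ℝ) + 1) ≤ m * ∑ e ∈ C, w e := by
        refine mul_le_mul_of_nonneg_left ?_ hm0
        push_cast at hstr
        linarith
      have hT4' : ∑ e ∈ T, max (l e - m) 0 ≤
          ∑ e ∈ univ.filter (fun e => σ (π (src e)) ≠ σ (π (tgt e))),
          w e * max (l e - m) 0 := hT4
      show m + ∑ e ∈ T, l e ≤ ∑ e ∈ C, w e * l e
      rw [e1]
      nlinarith

theorem TR : TR_stmt := by
  intro V E _ _ _ _ _ src tgt w hw hS l hl
  classical
  obtain ⟨q, hq⟩ : ∃ q, Fintype.card V = q + 1 :=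
    ⟨Fintype.card V - 1, by have := Fintype.card_pos (α := V); omega⟩
  let e : V ≃ Fin (q + 1) := (Fintype.equivFin V).trans (finCongr hq)
  obtain ⟨T, hT1, -, hT3, hT4⟩ := key src tgt w hw hS q e e.surjective l hl
  refine ⟨T, ⟨by rw [hT1, hq], ?_⟩, ?_⟩
  · intro x hx u v
    have := hT3 (fun j => x (e.symm j)) (by
      intro d hd
      simp only [Equiv.symm_apply_apply]
      exact hx d hd) (e u) (e v)
    simpa using this
  · refine hT4.trans ?_
    refine Finset.sum_le_sum_of_subset_of_nonneg (Finset.subset_univ _) ?_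
    intro d _ _
    exact mul_nonneg (hw d) (hl d)

end Pool.Agent.helper88.CFL

namespace Pool.Agent.helper11.CFL

theorem TR : TR_stmt := Pool.Agent.helper88.CFL.TR

end Pool.Agent.helper11.CFL
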